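import Pool.Agent.W993.MC.Stm

/-!
# Project MC: Abel summation (part ABEL)
-/

set_option autoImplicit false

open Filter Topology

namespace Pool.Agent.W412.MC

open Pool.Agent.W993.MC

theorem re_lt {z : ℂ} (h : ‖z‖ = 1) (hz : z ≠ 1) : z.re < 1 := by
  have h1 : z.re ≤ 1 := (Complex.re_le_norm z).trans h.le
  rcases h1.lt_or_eq with h2 | h2
  · exact h2
  · exfalso
    apply hz
    have h3 : Complex.normSq z = 1 := by
      rw [Complex.normSq_eq_norm_sq, h, one_pow]
    rw [Complex.normSq_apply, h2] at h3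
    have h4 : z.im * z.im = 0 := by linarith
    have h5 : z.im = 0 := mul_self_eq_zero.1 h4
    exact Complex.ext (by rw [h2, Complex.one_re]) (by rw [h5, Complex.one_im])

theorem abel (hG : S_GEN) (hC : S_CV) : S_ABEL := by
  intro k z hz1 hz
  set L : List (ℕ × ℂ) := List.replicate k (1, 1) with hL
  set f : ℕ → ℂ := fun l => z ^ (l + 1) / ((l : ℂ) + 1) ^ 1 * S L l with hf
  obtain ⟨v, hv⟩ := hC 1 z L le_rfl hz1.le (by simpa using hz) (by
    intro p hp
    rw [hL] at hp
    have := List.eq_of_mem_replicate hp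
    rw [this]
    simp)
  have hv' : Tendsto (fun n => ∑ i ∈ Finset.range n, f i) atTop (𝓝 v) := hv
  have hab := Complex.tendsto_tsum_powerSeries_nhdsWithin_lt hv'
  rw [Filter.tendsto_map'_iff] at hab
  set val : ℝ → ℂ := fun t =>
    (-Complex.log (1 - (t : ℂ) * z)) ^ (k + 1) / ((k + 1).factorial : ℂ) with hval
  have hmul : Tendsto (fun t : ℝ => (t : ℂ) * ∑' n, f n * (t : ℂ) ^ n) (𝓝[<] (1 : ℝ))
      (𝓝 (((1 : ℝ) : ℂ) * v)) := by
    refine Tendsto.mul ?_ hab
    exact (Complex.continuous_ofReal.tendsto 1).mono_left nhdsWithin_le_nhds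
  have heq : (fun t : ℝ => (t : ℂ) * ∑' n, f n * (t : ℂ) ^ n) =ᶠ[𝓝[<] (1 : ℝ)] val := by
    have hmem : Set.Ioo (0 : ℝ) 1 ∈ 𝓝[<] (1 : ℝ) := Ioo_mem_nhdsLT (by norm_num)
    filter_upwards [hmem] with t ht
    have hx : ‖(t : ℂ) * z‖ < 1 := by
      rw [norm_mul, hz1, mul_one, Complex.norm_real, Real.norm_eq_abs, abs_of_pos ht.1]
      exact ht.2
    have h1 := hG k ((t : ℂ) * z) hx
    rw [← tsum_mul_left, hval]
    simp only []
    rw [← h1.tsum_eq]
    refine tsum_congr fun n => ?_
    simp only [hf]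
    rw [mul_pow, pow_one]
    ring
  have hval1 : Tendsto val (𝓝[<] (1 : ℝ)) (𝓝 (val 1)) := by
    have hc : ContinuousAt val 1 := by
      have hs : (1 - ((1 : ℝ) : ℂ) * z) ∈ Complex.slitPlane := by
        rw [Complex.mem_slitPlane_iff]
        left
        have := re_lt hz1 hz
        simp
        exact this
      have h1 : ContinuousAt (fun t : ℝ => Complex.log (1 - (t : ℂ) * z)) 1 := by
        refine ContinuousAt.clog ?_ hs
        fun_prop
      exact ((h1.neg).pow (k + 1)).div_const _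
    exact hc.tendsto.mono_left nhdsWithin_le_nhds
  have hlim := (tendsto_congr' heq).1 hmul
  have huniq := tendsto_nhds_unique hlim hval1
  have hfin : v = (-Complex.log (1 - z)) ^ (k + 1) / ((k + 1).factorial : ℂ) := by
    simpa [hval] using huniq
  rw [← hfin]
  exact hv

end Pool.Agent.W412.MC
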